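import Pool.Agent.H66.ER2.Targets

/-!
# GMJ: in the context of a split prism `v` sees two of the `a`'s and two of the `b`'s (helper49)
-/

set_option autoImplicit false

open Pool.Agent.H48.ER Pool.Agent.H52.ER2 Pool.Agent.H66.ER2

namespace Pool.Agent.H49.ER2

theorem pf_GMJ (hSPV : T_SPV) : T_GMJ := by
  intro V G v k z l r n m a1 x b1 y a2 b2 a3 b3 L R P Q h
  rcases hSPV V G l r n m a1 x b1 y a2 b2 a3 b3 v L R P Q h.cls.noh h.cls.nop h.sp h.nv h.hx.1
    h.hy.1 with h1 | ⟨⟨a, b, n', P', hP, hv⟩, -⟩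
  · exact h1
  · exact absurd hv (h.nco a b n' P' hP 0).1

end Pool.Agent.H49.ER2
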