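import Pool.Agent.H56.ER2.Targets

/-!
# IC4: existence of a stable pair (helper49)
-/

set_option autoImplicit false

open Pool.Agent.H48.ER Pool.Agent.H52.ER2 Pool.Agent.H66.ER2 Pool.Agent.H56.ER2

namespace Pool.Agent.H49.ER2

/-- a relation in which two of three different elements are comparable is transitive -/
theorem tr3 {X : Type} (S : Finset X) (R : X → X → Prop)
    (has : ∀ x ∈ S, ∀ y ∈ S, R x y → ¬ R y x)
    (h3 : ∀ x ∈ S, ∀ y ∈ S, ∀ c ∈ S, R x y → c ≠ x → c ≠ y → R x c ∨ R c y) :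
    ∀ x ∈ S, ∀ y ∈ S, ∀ w ∈ S, R x y → R y w → R x w := by
  intro x hx y hy w hw h1 h2
  have hwx : w ≠ x := fun h => has x hx y hy h1 (h ▸ h2)
  have hwy : w ≠ y := by
    intro h
    rw [h] at h2
    exact has y hy y hy h2 h2
  rcases h3 x hx y hy w hw h1 hwx hwy with h | h
  · exact h
  · exact absurd h2 (has w hw y hy h)

open Classical in
/-- maximal elements above an element -/
theorem exmax {X : Type} (S : Finset X) (R : X → X → Prop) (hcl : ∀ x ∈ S, ∀ y, R x y → y ∈ S)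
    (has : ∀ x ∈ S, ∀ y ∈ S, R x y → ¬ R y x)
    (htr : ∀ x ∈ S, ∀ y ∈ S, ∀ w ∈ S, R x y → R y w → R x w) :
    ∀ (N : ℕ) (x : X), x ∈ S → (S.filter fun z => R x z).card = N →
      ∃ y ∈ S, (y = x ∨ R x y) ∧ ∀ z, ¬ R y z := by
  intro N
  induction N using Nat.strong_induction_on with
  | _ N ih =>
    intro x hx hN
    by_cases h : ∃ z, R x z
    · obtain ⟨z, hz⟩ := h
      have hzS := hcl x hx z hz
      have hlt : (S.filter fun w => R z w).card < N := by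
        rw [← hN]
        refine Finset.card_lt_card (Finset.ssubset_iff_subset_ne.2 ⟨?_, ?_⟩)
        · intro w hw
          rw [Finset.mem_filter] at hw ⊢
          exact ⟨hw.1, htr x hx z hzS w hw.1 hz hw.2⟩
        · intro he
          have h1 : z ∈ S.filter fun w => R x w := Finset.mem_filter.2 ⟨hzS, hz⟩
          rw [← he, Finset.mem_filter] at h1
          exact has z hzS z hzS h1.2 h1.2
      obtain ⟨y, hy, h1, h2⟩ := ih _ hlt z hzS rfl
      refine ⟨y, hy, Or.inr ?_, h2⟩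
      rcases h1 with rfl | h1
      · exact hz
      · exact htr x hx z hzS y hy hz h1
    · exact ⟨x, hx, Or.inl rfl, fun z hz => h ⟨z, hz⟩⟩

theorem pf_IC4 : T_IC4 := by
  classical
  intro X A B L M hA hB h1 h2 h3 h4 h5 h6 h7
  have trL : ∀ b ∈ B, ∀ x ∈ A, ∀ y ∈ A, ∀ w ∈ A, L b x y → L b y w → L b x w :=
    fun b hb => tr3 A (L b) (h3 b hb) (h5 b hb)
  have trM : ∀ a ∈ A, ∀ x ∈ B, ∀ y ∈ B, ∀ w ∈ B, M a x y → M a y w → M a x w :=
    fun a ha => tr3 B (M a) (h4 a ha) (h6 a ha)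
  have mxM : ∀ a ∈ A, ∀ b ∈ B, ∃ b' ∈ B, (b' = b ∨ M a b b') ∧ ∀ z, ¬ M a b' z :=
    fun a ha b hb => exmax B (M a) (h2 a ha) (h4 a ha) (trM a ha) _ b hb rfl
  obtain ⟨a0, ha0⟩ := hA
  obtain ⟨b0, hb0⟩ := hB
  obtain ⟨b1, hb1, -, hm1⟩ := mxM a0 ha0 b0 hb0
  have hne : ((A ×ˢ B).filter fun p : X × X => ∀ z, ¬ M p.1 p.2 z).Nonempty :=
    ⟨(a0, b1), Finset.mem_filter.2 ⟨Finset.mem_product.2 ⟨ha0, hb1⟩, hm1⟩⟩
  obtain ⟨⟨a, b⟩, hp, hmax⟩ := Finset.exists_max_image _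
    (fun p : X × X => (A.filter fun x => L p.2 x p.1).card) hne
  rw [Finset.mem_filter, Finset.mem_product] at hp
  obtain ⟨⟨ha, hb⟩, hm⟩ := hp
  simp only at ha hb hm hmax
  refine ⟨a, ha, b, hb, fun a' haa => ?_, hm⟩
  have ha' := h1 b hb a ha a' haa
  obtain ⟨b', hb', hbb, hm'⟩ := mxM a' ha' b hb
  have key : ∀ x ∈ A, L b x a' → L b' x a' := by
    intro x hx h
    by_cases he : b' = b
    · rw [he]
      exact h
    · rcases h7 b hb b' hb' x hx a' ha' h he with h8 | h8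
      · exact h8
      · exact absurd h8 (hm' b)
  have hle := hmax (a', b') (Finset.mem_filter.2 ⟨Finset.mem_product.2 ⟨ha', hb'⟩, hm'⟩)
  simp only at hle
  refine absurd hle (not_le.2 (Finset.card_lt_card (Finset.ssubset_iff_subset_ne.2 ⟨?_, ?_⟩)))
  · intro x hx
    rw [Finset.mem_filter] at hx ⊢
    exact ⟨hx.1, key x hx.1 (trL b hb x hx.1 a ha a' ha' hx.2 haa)⟩
  · intro he
    have h8 : a ∈ A.filter fun x => L b' x a' := Finset.mem_filter.2 ⟨ha, key a ha haa⟩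
    rw [← he, Finset.mem_filter] at h8
    exact h3 b hb a ha a ha h8.2 h8.2

end Pool.Agent.H49.ER2
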