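import Pool.Agent.H56.ER2.Targets

/-!
# IDX: the induction over the segments of a path (helper49)
-/

set_option autoImplicit false

open Pool.Agent.H48.ER Pool.Agent.H52.ER2 Pool.Agent.H66.ER2 Pool.Agent.H56.ER2

namespace Pool.Agent.H49.ER2

/-- the last index below `k` with the property `P` -/
theorem last_lt (P : ℕ → Prop) (h0 : P 0) : ∀ k : ℕ, 0 < k →
    ∃ i, i < k ∧ P i ∧ ∀ j, i < j → j < k → ¬ P j := by
  intro k
  induction k with
  | zero => intro h; exact absurd h (lt_irrefl 0)
  | succ k ih =>
    intro _
    by_cases hk : P k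
    · exact ⟨k, Nat.lt_succ_self k, hk, fun j h1 h2 => absurd h1 (by omega)⟩
    · rcases Nat.eq_zero_or_pos k with rfl | hpos
      · exact absurd h0 hk
      · obtain ⟨i, h1, h2, h3⟩ := ih hpos
        refine ⟨i, by omega, h2, fun j h4 h5 => ?_⟩
        rcases Nat.lt_succ_iff_lt_or_eq.1 h5 with h6 | h6
        · exact h3 j h4 h6
        · rw [h6]
          exact hk

/-- the first index from `i` on with the property `P` -/
theorem first_ge (P : ℕ → Prop) (i c : ℕ) (hic : i ≤ c) (hc : P c) :
    ∃ d, i ≤ d ∧ d ≤ c ∧ P d ∧ ∀ j, i ≤ j → j < d → ¬ P j := by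
  classical
  have h : ∃ d, i ≤ d ∧ P d := ⟨c, hic, hc⟩
  refine ⟨Nat.find h, (Nat.find_spec h).1, Nat.find_min' h ⟨hic, hc⟩, (Nat.find_spec h).2, ?_⟩
  intro j h1 h2 h3
  exact Nat.find_min h h2 ⟨h1, h3⟩

theorem pf_IDX : T_IDX := by
  intro m N w hm hw0 hwm hN0 hNm hwN h2 h3
  have claim : ∀ k, k ≤ m → w k → (¬ N k ∨ k = m) → ∀ c, c ≤ k → N c →
      (∀ j, c < j → j ≤ k → ¬ N j) → Even c := by
    intro k
    induction k using Nat.strong_induction_on with
    | _ k ih =>
      intro hkm hwk hk c hck hNc hno
      rcases Nat.eq_zero_or_pos k with rfl | hpos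
      · rcases hk with h | h
        · exact absurd hN0 h
        · omega
      obtain ⟨i, hik, hwi, hnow⟩ := last_lt w hw0 k hpos
      rcases le_or_gt c i with hci | hci
      · rcases Nat.eq_zero_or_pos i with h0 | h0
        · have : c = 0 := by omega
          rw [this]
          exact Even.zero
        · exact ih i hik (by omega) hwi (Or.inl (hwN i h0 (by omega) hwi)) c hci hNc
            fun j h4 h5 => hno j h4 (by omega)
      · obtain ⟨d, hid, hdc, hNd, hnod⟩ := first_ge N i c hci.le hNc
        have e1 : Even (c - d) := h3 i k d c hik hkm hwi hwk hnow hid hdc hck hNd hNc hnod hno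
        rcases Nat.eq_zero_or_pos i with h0 | h0
        · have hd0 : d = 0 := by
            by_contra hd
            exact hnod 0 (by omega) (by omega) hN0
          rw [hd0, Nat.sub_zero] at e1
          exact e1
        · have hNi : ¬ N i := hwN i h0 (by omega) hwi
          obtain ⟨c', hc'i, hNc', hnoc'⟩ := last_lt N hN0 i h0
          have e2 : Even c' := by
            refine ih i hik (by omega) hwi (Or.inl hNi) c' hc'i.le hNc' fun j h4 h5 => ?_
            rcases h5.lt_or_eq with h6 | h6
            · exact hnoc' j h4 h6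
            · rw [h6]
              exact hNi
          have hdi : i < d := by
            rcases hid.lt_or_eq with h6 | h6
            · exact h6
            · exact absurd (h6 ▸ hNd) hNi
          have e3 : Even (d - c') := by
            refine h2 c' d (by omega) (by omega) hNc' hNd fun j h4 h5 => ?_
            rcases lt_trichotomy j i with h6 | h6 | h6
            · exact hnoc' j h4 h6
            · rw [h6]
              exact hNi
            · exact hnod j h6.le h5
          obtain ⟨u, hu⟩ := e1
          obtain ⟨v, hv⟩ := e2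
          obtain ⟨x, hx⟩ := e3
          exact ⟨u + v + x, by omega⟩
  exact claim m le_rfl hwm (Or.inr rfl) m le_rfl hNm fun j h4 h5 => absurd h4 (by omega)

end Pool.Agent.H49.ER2
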